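import Pool.Agent.helper38.AT.Spec

/-!
# Row bq:PRT (project AT, MP_bf63dc_nt)
-/

set_option autoImplicit false

namespace Pool.Agent.AT

open Finset Real Pool.Agent.helper39.MT Pool.Agent.helper85.FC Pool.Agent.MK

theorem PRT_core (d a b : ℕ) (h1 h2 : ℤ) (hd : 0 < d) (ha : 0 < a) (hb : 0 < b) (hab : Nat.Coprime a b)
    (hne : ¬ (d * b = d * a ∧ h1 = h2))
    (hadm : ∀ p : ℕ, p.Prime → ∃ n : ℕ, ¬ (p : ℤ) ∣ ((d * b : ℕ) : ℤ) * n + h1 ∧ ¬ (p : ℤ) ∣ ((d * a : ℕ) : ℤ) * n + h2)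
    (hinf : ∀ N : ℕ, ∃ n ≥ N, ((((d * b : ℕ) : ℤ) * n + h1).toNat).Prime ∧ ((((d * a : ℕ) : ℤ) * n + h2).toNat).Prime) :
    TrueCase a b ((a : ℤ) * h1 - b * h2) := by
  have e1 : ∀ p : ℕ, p.Prime → p ∣ b → ¬ (p : ℤ) ∣ h1 := by
    intro p hp hps hph
    obtain ⟨n, hn, -⟩ := hadm p hp
    apply hn
    apply dvd_add _ hph
    apply Dvd.dvd.mul_right
    exact Int.natCast_dvd_natCast.mpr (hps.mul_left d)
  have e2 : ∀ p : ℕ, p.Prime → p ∣ a → ¬ (p : ℤ) ∣ h2 := by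
    intro p hp hps hph
    obtain ⟨n, -, hn⟩ := hadm p hp
    apply hn
    apply dvd_add _ hph
    apply Dvd.dvd.mul_right
    exact Int.natCast_dvd_natCast.mpr (hps.mul_left d)
  have c1 : ∀ p : ℕ, p.Prime → p ∣ a → ¬ (p : ℤ) ∣ ((a : ℤ) * h1 - b * h2) := by
    intro p hp hpa hc
    have hpa' : (p : ℤ) ∣ (a : ℤ) * h1 := (Int.natCast_dvd_natCast.mpr hpa).mul_right h1
    have hbh : (p : ℤ) ∣ (b : ℤ) * h2 := by
      have := dvd_sub hpa' hc
      simpa using this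
    rcases (Nat.prime_iff_prime_int.mp hp).dvd_or_dvd hbh with h | h
    · have hpb : p ∣ b := Int.natCast_dvd_natCast.mp h
      exact Nat.Prime.one_lt hp |>.ne' (Nat.eq_one_of_dvd_coprimes hab hpa hpb)
    · exact e2 p hp hpa h
  have c2 : ∀ p : ℕ, p.Prime → p ∣ b → ¬ (p : ℤ) ∣ ((a : ℤ) * h1 - b * h2) := by
    intro p hp hpb hc
    have hpb' : (p : ℤ) ∣ (b : ℤ) * h2 := (Int.natCast_dvd_natCast.mpr hpb).mul_right h2
    have hah : (p : ℤ) ∣ (a : ℤ) * h1 := by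
      have := dvd_add hc hpb'
      simpa using this
    rcases (Nat.prime_iff_prime_int.mp hp).dvd_or_dvd hah with h | h
    · have hpa : p ∣ a := Int.natCast_dvd_natCast.mp h
      exact Nat.Prime.one_lt hp |>.ne' (Nat.eq_one_of_dvd_coprimes hab hpa hpb)
    · exact e1 p hp hpb h
  refine ⟨ha, hb, ?_, hab, ?_, ?_, ?_, ?_⟩
  · intro h0
    have ha1 : a = 1 := by
      by_contra h
      obtain ⟨p, hp, hpa⟩ := Nat.exists_prime_and_dvd h
      exact c1 p hp hpa (by rw [h0]; exact dvd_zero _)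
    have hb1 : b = 1 := by
      by_contra h
      obtain ⟨p, hp, hpb⟩ := Nat.exists_prime_and_dvd h
      exact c2 p hp hpb (by rw [h0]; exact dvd_zero _)
    apply hne
    subst ha1 hb1
    refine ⟨rfl, ?_⟩
    push_cast at h0
    linarith
  · rw [Int.isCoprime_iff_gcd_eq_one]
    by_contra h
    obtain ⟨p, hp, hpg⟩ := Nat.exists_prime_and_dvd h
    have h3 : (p : ℤ) ∣ (a : ℤ) := (Int.natCast_dvd_natCast.mpr hpg).trans (Int.gcd_dvd_left _ _)
    have h4 : (p : ℤ) ∣ ((a : ℤ) * h1 - b * h2) := (Int.natCast_dvd_natCast.mpr hpg).trans (Int.gcd_dvd_right _ _)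
    exact c1 p hp (Int.natCast_dvd_natCast.mp h3) h4
  · rw [Int.isCoprime_iff_gcd_eq_one]
    by_contra h
    obtain ⟨p, hp, hpg⟩ := Nat.exists_prime_and_dvd h
    have h3 : (p : ℤ) ∣ (b : ℤ) := (Int.natCast_dvd_natCast.mpr hpg).trans (Int.gcd_dvd_left _ _)
    have h4 : (p : ℤ) ∣ ((a : ℤ) * h1 - b * h2) := (Int.natCast_dvd_natCast.mpr hpg).trans (Int.gcd_dvd_right _ _)
    exact c2 p hp (Int.natCast_dvd_natCast.mp h3) h4
  · rintro ⟨hoa, hob, hoc⟩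
    obtain ⟨n, hn1, hn2⟩ := hadm 2 Nat.prime_two
    have hn1' : Odd (((d * b : ℕ) : ℤ) * n + h1) := by
      rw [← Int.not_even_iff_odd, even_iff_two_dvd]
      exact_mod_cast hn1
    have hn2' : Odd (((d * a : ℕ) : ℤ) * n + h2) := by
      rw [← Int.not_even_iff_odd, even_iff_two_dvd]
      exact_mod_cast hn2
    have hoa' : Odd (a : ℤ) := by exact_mod_cast hoa
    have hob' : Odd (b : ℤ) := by exact_mod_cast hob
    have heq : (a : ℤ) * h1 - b * h2 = (a : ℤ) * (((d * b : ℕ) : ℤ) * n + h1) - b * (((d * a : ℕ) : ℤ) * n + h2) := by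
      push_cast; ring
    have : Even ((a : ℤ) * h1 - b * h2) := by
      rw [heq]
      exact (hoa'.mul hn1').sub_odd (hob'.mul hn2')
    exact (Int.not_even_iff_odd.mpr hoc) this
  · apply Set.Infinite.of_image Prod.fst
    apply Set.infinite_of_forall_exists_gt
    intro M
    obtain ⟨n, hn, hp, hq⟩ := hinf (M + h1.natAbs + 1)
    have hpz : (0 : ℤ) < ((d * b : ℕ) : ℤ) * n + h1 := by
      have := hp.pos
      omega
    have hqz : (0 : ℤ) < ((d * a : ℕ) : ℤ) * n + h2 := by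
      have := hq.pos
      omega
    refine ⟨(((d * b : ℕ) : ℤ) * n + h1).toNat, ?_, ?_⟩
    · refine ⟨((((d * b : ℕ) : ℤ) * n + h1).toNat, (((d * a : ℕ) : ℤ) * n + h2).toNat), ⟨hp, hq, ?_⟩, rfl⟩
      simp only
      rw [Int.toNat_of_nonneg hpz.le, Int.toNat_of_nonneg hqz.le]
      push_cast; ring
    · have h5 : (1 : ℤ) ≤ ((d * b : ℕ) : ℤ) := by
        have : 0 < d * b := Nat.mul_pos hd hb
        omega
      have h6 : (n : ℤ) ≤ ((d * b : ℕ) : ℤ) * n := by nlinarith [Int.natCast_nonneg n]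
      omega

theorem PRT : PRT_stmt := by
  rintro ⟨s, h1⟩ ⟨t, h2⟩ hf hg hne hadm hinf
  simp only at hf hg
  have hd : 0 < Nat.gcd s t := Nat.gcd_pos_of_pos_left _ hf
  have hb : 0 < s / Nat.gcd s t := Nat.div_pos (Nat.le_of_dvd hf (Nat.gcd_dvd_left s t)) hd
  have ha : 0 < t / Nat.gcd s t := Nat.div_pos (Nat.le_of_dvd hg (Nat.gcd_dvd_right s t)) hd
  have hs : Nat.gcd s t * (s / Nat.gcd s t) = s := Nat.mul_div_cancel' (Nat.gcd_dvd_left s t)
  have ht : Nat.gcd s t * (t / Nat.gcd s t) = t := Nat.mul_div_cancel' (Nat.gcd_dvd_right s t)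
  have hab : Nat.Coprime (t / Nat.gcd s t) (s / Nat.gcd s t) := (Nat.coprime_div_gcd_div_gcd hd).symm
  have key := PRT_core (Nat.gcd s t) (t / Nat.gcd s t) (s / Nat.gcd s t) h1 h2 hd ha hb hab
    (by
      rintro ⟨h3, h4⟩
      rw [hs, ht] at h3
      exact hne (by rw [h3, h4]))
    (by
      intro p hp
      obtain ⟨n, hn⟩ := hadm p hp
      have q0 := hn 0
      have q1 := hn 1
      simp only [Matrix.cons_val_zero, Matrix.cons_val_one] at q0 q1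
      rw [hs, ht]
      exact ⟨n, q0, q1⟩)
    (by
      intro N
      obtain ⟨n, hn, hp, hq⟩ := hinf N
      rw [hs, ht]
      exact ⟨n, hn, hp, hq⟩)
  have hc : (((t : ℤ) * h1 - s * h2) / ((Nat.gcd s t : ℕ) : ℤ)) =
      ((t / Nat.gcd s t : ℕ) : ℤ) * h1 - ((s / Nat.gcd s t : ℕ) : ℤ) * h2 := by
    have hsz : (s : ℤ) = ((Nat.gcd s t : ℕ) : ℤ) * ((s / Nat.gcd s t : ℕ) : ℤ) := by
      rw [← Nat.cast_mul, hs]
    have htz : (t : ℤ) = ((Nat.gcd s t : ℕ) : ℤ) * ((t / Nat.gcd s t : ℕ) : ℤ) := by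
      rw [← Nat.cast_mul, ht]
    have h7 : (t : ℤ) * h1 - s * h2 = ((Nat.gcd s t : ℕ) : ℤ) *
        (((t / Nat.gcd s t : ℕ) : ℤ) * h1 - ((s / Nat.gcd s t : ℕ) : ℤ) * h2) := by
      calc (t : ℤ) * h1 - s * h2 = (((Nat.gcd s t : ℕ) : ℤ) * ((t / Nat.gcd s t : ℕ) : ℤ)) * h1 -
            (((Nat.gcd s t : ℕ) : ℤ) * ((s / Nat.gcd s t : ℕ) : ℤ)) * h2 := by rw [← hsz, ← htz]
        _ = _ := by ring
    rw [h7]
    exact Int.mul_ediv_cancel_left _ (by exact_mod_cast hd.ne')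
  show TrueCase (t / Nat.gcd s t) (s / Nat.gcd s t) (((t : ℤ) * h1 - s * h2) / ((Nat.gcd s t : ℕ) : ℤ))
  rw [hc]
  exact key

end Pool.Agent.AT
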