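import Pool.Agent.helper38.AT.Spec

/-!
# Row bq:CLQ (project AT, MP_bf63dc_nt)
-/

set_option autoImplicit false

namespace Pool.Agent.AT

open Finset Real Pool.Agent.helper39.MT Pool.Agent.helper85.FC Pool.Agent.MK

/-- all forms in `I` are prime simultaneously infinitely often -/
def CLQ_Good {k : ℕ} (f : Fin k → ℕ × ℤ) (I : Finset (Fin k)) : Prop :=
  ∀ N : ℕ, ∃ n ≥ N, ∀ i ∈ I, (ev (f i) n).Prime

/-- the tuple of forms -/
def CLQ_f {k : ℕ} (s : Fin k → ℕ) (P : ℕ) (x : Fin k → ℕ) : Fin k → ℕ × ℤ := fun i => (s i, 1 + (P : ℤ) * x i)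

theorem CLQ_many {k : ℕ} (f : Fin k → ℕ × ℤ) (h : Many f) :
    ∃ I : Finset (Fin k), (1 / 4 + 1 / 500000 : ℝ) * k < #I ∧ CLQ_Good f I := by
  classical
  by_contra hc
  have hc' : ∀ I : Finset (Fin k), (1 / 4 + 1 / 500000 : ℝ) * k < #I →
      ∃ N : ℕ, ∀ n ≥ N, ¬ ∀ i ∈ I, (ev (f i) n).Prime := by
    intro I hI
    by_contra h2
    apply hc
    refine ⟨I, hI, ?_⟩
    intro N
    by_contra h3
    apply h2
    refine ⟨N, ?_⟩
    intro n hn h4
    exact h3 ⟨n, hn, h4⟩
  choose! m hm using hc'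
  obtain ⟨n, hn, hh⟩ := h ((Finset.univ : Finset (Finset (Fin k))).sup m)
  have h5 := hm {i : Fin k | (ev (f i) n).Prime} hh n
    (le_trans (Finset.le_sup (f := m) (Finset.mem_univ _)) hn)
  apply h5
  intro i hi
  exact (Finset.mem_filter.mp hi).2

theorem CLQ_adm {k : ℕ} (s : Fin k → ℕ) (P : ℕ) (hP : ∀ p : ℕ, p.Prime → p ≤ k → p ∣ P)
    (hsP : ∀ i, s i ∣ P) (x : Fin k → ℕ) : Adm (CLQ_f s P x) := by
  classical
  intro p hp
  by_cases hpP : p ∣ P
  · refine ⟨0, ?_⟩
    intro i h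
    simp only [CLQ_f, Nat.cast_zero, mul_zero, zero_add] at h
    have h2 : (p : ℤ) ∣ (P : ℤ) * x i := (Int.natCast_dvd_natCast.mpr hpP).mul_right _
    have h3 : (p : ℤ) ∣ 1 := by
      have := dvd_sub h h2
      simpa using this
    have h4 : p ∣ 1 := by exact_mod_cast h3
    exact hp.one_lt.ne' (Nat.dvd_one.mp h4)
  · have hpk : k < p := by
      by_contra h
      exact hpP (hP p hp (by omega))
    by_contra hcon
    have hcon' : ∀ n : ℕ, ∃ i : Fin k, (p : ℤ) ∣ (s i : ℤ) * n + (1 + (P : ℤ) * x i) := by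
      intro n
      by_contra h
      apply hcon
      refine ⟨n, ?_⟩
      intro i hi
      exact h ⟨i, hi⟩
    choose g hg using hcon'
    have hcard : #(Finset.range p) ≤ #(Finset.univ : Finset (Fin k)) := by
      apply Finset.card_le_card_of_injOn g
      · intro n _
        exact Finset.mem_coe.mpr (Finset.mem_univ _)
      · intro n hn n' hn' hgg
        have a1 := hg n
        have a2 := hg n'
        rw [← hgg] at a2
        have a3 : (p : ℤ) ∣ (s (g n) : ℤ) * ((n : ℤ) - n') := by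
          have := dvd_sub a1 a2
          have e : (s (g n) : ℤ) * n + (1 + (P : ℤ) * x (g n)) - ((s (g n) : ℤ) * n' + (1 + (P : ℤ) * x (g n))) =
            (s (g n) : ℤ) * ((n : ℤ) - n') := by ring
          rwa [e] at this
        rcases (Nat.prime_iff_prime_int.mp hp).dvd_or_dvd a3 with h | h
        · exact absurd ((Int.natCast_dvd_natCast.mp h).trans (hsP (g n))) hpP
        · have b1 : n < p := Finset.mem_range.mp (Finset.mem_coe.mp hn)
          have b2 : n' < p := Finset.mem_range.mp (Finset.mem_coe.mp hn')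
          have b3 : |(n : ℤ) - n'| < p := by
            rw [abs_lt]; constructor <;> omega
          have b4 := Int.eq_zero_of_abs_lt_dvd h b3
          omega
    simp only [Finset.card_range, Finset.card_univ, Fintype.card_fin] at hcard
    omega

theorem CLQ_val {k : ℕ} (s : Fin k → ℕ) (P : ℕ) (hs : ∀ i, 0 < s i) (i j : Fin k) (x : Fin k → ℕ) :
    (((Nat.gcd (s i) (s j) : ℕ) : ℤ)) *
      (((s j : ℤ) * (1 + (P : ℤ) * x i) - s i * (1 + (P : ℤ) * x j)) / ((Nat.gcd (s i) (s j) : ℕ) : ℤ)) =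
      (s j : ℤ) * (1 + (P : ℤ) * x i) - s i * (1 + (P : ℤ) * x j) := by
  apply Int.mul_ediv_cancel'
  apply dvd_sub
  · apply Dvd.dvd.mul_right
    exact Int.natCast_dvd_natCast.mpr (Nat.gcd_dvd_right _ _)
  · apply Dvd.dvd.mul_right
    exact Int.natCast_dvd_natCast.mpr (Nat.gcd_dvd_left _ _)

theorem CLQ_fib {k : ℕ} (s : Fin k → ℕ) (P M : ℕ) (hP : 0 < P) (hs : ∀ i, 0 < s i) (i j : Fin k) (hij : i ≠ j)
    (c : ℤ) (S : Finset (Fin k → ℕ)) (hS : S ⊆ Fintype.piFinset (fun _ : Fin k => Icc 1 M))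
    (hc : ∀ x ∈ S, ((s j : ℤ) * (1 + (P : ℤ) * x i) - s i * (1 + (P : ℤ) * x j)) / ((Nat.gcd (s i) (s j) : ℕ) : ℤ) = c) :
    #S ≤ M ^ (k - 1) := by
  classical
  have h0 : #(Fintype.piFinset (fun _ : {l : Fin k // l ≠ i} => Icc 1 M)) = M ^ (k - 1) := by
    rw [Fintype.card_piFinset]; simp
  rw [← h0]
  apply Finset.card_le_card_of_injOn (fun x => fun l : {l : Fin k // l ≠ i} => x l.1)
  · intro x hx
    apply Finset.mem_coe.mpr
    rw [Fintype.mem_piFinset]
    intro l
    exact (Fintype.mem_piFinset.mp (hS (Finset.mem_coe.mp hx))) l.1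
  · intro x hx y hy hxy
    have hxy' : ∀ l : Fin k, l ≠ i → x l = y l := by
      intro l hl
      exact congrFun hxy ⟨l, hl⟩
    funext l
    by_cases hl : l = i
    · subst hl
      have a1 := CLQ_val s P hs l j x
      have a2 := CLQ_val s P hs l j y
      rw [hc x (Finset.mem_coe.mp hx)] at a1
      rw [hc y (Finset.mem_coe.mp hy)] at a2
      have a3 := hxy' j (Ne.symm hij)
      rw [a3] at a1
      have a4 : (s j : ℤ) * P * ((x l : ℤ) - y l) = 0 := by linarith
      have a5 : (s j : ℤ) * P ≠ 0 := by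
        have := hs j
        positivity
      have a6 := (mul_eq_zero.mp a4).resolve_left a5
      omega
    · exact hxy' l hl

theorem CLQ (hPRT : PRT_stmt) : CLQ_stmt := by
  classical
  intro k hk hQ s hs hinj
  obtain ⟨C, δ, hC, hδ, hδ1, hQ⟩ := hQ
  set P : ℕ := (∏ i, s i) * k.factorial with hPdef
  have hPpos : 0 < P := Nat.mul_pos (Finset.prod_pos (fun i _ => hs i)) (Nat.factorial_pos k)
  have hP1 : ∀ p : ℕ, p.Prime → p ≤ k → p ∣ P := by
    intro p hp hpk
    exact (Nat.dvd_factorial hp.pos hpk).mul_left _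
  have hP2 : ∀ i, s i ∣ P := fun i => (Finset.dvd_prod_of_mem s (Finset.mem_univ i)).mul_right _
  let U : ℕ → Finset (Fin k → ℕ) := fun M => Fintype.piFinset (fun _ : Fin k => Icc 1 M)
  have hU : ∀ M, #(U M) = M ^ k := by
    intro M
    show #(Fintype.piFinset (fun _ : Fin k => Icc 1 M)) = M ^ k
    rw [Fintype.card_piFinset]; simp
  -- bad tuples
  have hbad : ∀ M : ℕ, 1 ≤ M → (#{x ∈ U M | ¬ Many (CLQ_f s P x)} : ℝ) ≤ C * (M : ℝ) ^ k * (M : ℝ) ^ (-δ) := by
    intro M hM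
    let F : Fin k → Finset (ℕ × ℤ) := fun i => (Icc 1 M).image (fun x : ℕ => (s i, 1 + (P : ℤ) * x))
    have hF : ∀ i, #(F i) = M := by
      intro i
      show #((Icc 1 M).image (fun x : ℕ => (s i, 1 + (P : ℤ) * x))) = M
      rw [Finset.card_image_of_injective]
      · simp
      · intro x y hxy
        simp only [Prod.mk.injEq, true_and, add_right_inj] at hxy
        have h1 : (P : ℤ) ≠ 0 := by exact_mod_cast hPpos.ne'
        have := mul_left_cancel₀ h1 hxy
        exact_mod_cast this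
    have h1 := hQ F M hM (fun i => (hF i).ge) (by
      intro i f hf
      obtain ⟨x, -, rfl⟩ := Finset.mem_image.mp hf
      exact hs i)
    have h2 : (∏ i, (#(F i) : ℝ)) = (M : ℝ) ^ k := by
      simp [hF]
    rw [h2] at h1
    refine le_trans ?_ h1
    apply Nat.cast_le.mpr
    apply Finset.card_le_card_of_injOn (CLQ_f s P)
    · intro x hx
      have hx' := Finset.mem_filter.mp (Finset.mem_coe.mp hx)
      apply Finset.mem_coe.mpr
      rw [Finset.mem_filter]
      refine ⟨?_, CLQ_adm s P hP1 hP2 x, hx'.2⟩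
      rw [Fintype.mem_piFinset]
      intro i
      exact Finset.mem_image.mpr ⟨x i, Fintype.mem_piFinset.mp hx'.1 i, rfl⟩
    · intro x _ y _ hxy
      funext i
      have := congrFun hxy i
      simp only [CLQ_f, Prod.mk.injEq, true_and, add_right_inj] at this
      have h1 : (P : ℤ) ≠ 0 := by exact_mod_cast hPpos.ne'
      have := mul_left_cancel₀ h1 this
      exact_mod_cast this
  -- large M
  have hlarge : ∃ M₀ : ℕ, ∀ M : ℕ, M₀ ≤ M → C * (M : ℝ) ^ (-δ) ≤ 1 / 2 := by
    have ht : Filter.Tendsto (fun M : ℕ => C * (M : ℝ) ^ (-δ)) Filter.atTop (nhds (C * 0)) :=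
      ((tendsto_rpow_neg_atTop hδ).comp tendsto_natCast_atTop_atTop).const_mul C
    rw [mul_zero] at ht
    have := ht.eventually (eventually_le_nhds (show (0 : ℝ) < 1 / 2 by norm_num))
    exact Filter.eventually_atTop.mp this
  obtain ⟨M₀, hM₀⟩ := hlarge
  -- for each large M an I
  let R : ℕ → Finset (Fin k) → Prop := fun M I => (1 / 4 + 1 / 500000 : ℝ) * k < #I ∧
    (M : ℝ) ^ k / 2 ^ (k + 1) ≤ #{x ∈ U M | CLQ_Good (CLQ_f s P x) I}
  have hR : ∀ M : ℕ, max M₀ 1 ≤ M → ∃ I, R M I := by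
    intro M hM
    have hM1 : 1 ≤ M := le_trans (le_max_right _ _) hM
    have hM2 : M₀ ≤ M := le_trans (le_max_left _ _) hM
    have hMpos : (0 : ℝ) < M := by exact_mod_cast hM1
    have h1 := hbad M hM1
    have h2 := hM₀ M hM2
    have h3 : (#{x ∈ U M | Many (CLQ_f s P x)} : ℝ) + #{x ∈ U M | ¬ Many (CLQ_f s P x)} = (M : ℝ) ^ k := by
      have := Finset.card_filter_add_card_filter_not (s := U M) (fun x => Many (CLQ_f s P x))
      rw [hU M] at this
      exact_mod_cast this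
    have h4 : C * (M : ℝ) ^ k * (M : ℝ) ^ (-δ) ≤ (M : ℝ) ^ k / 2 := by
      have : (0 : ℝ) < (M : ℝ) ^ k := by positivity
      nlinarith
    have h5 : (M : ℝ) ^ k / 2 ≤ #{x ∈ U M | Many (CLQ_f s P x)} := by linarith
    have hch : ∀ x : Fin k → ℕ, ∃ I : Finset (Fin k), Many (CLQ_f s P x) →
        (1 / 4 + 1 / 500000 : ℝ) * k < #I ∧ CLQ_Good (CLQ_f s P x) I := by
      intro x
      by_cases hx : Many (CLQ_f s P x)
      · obtain ⟨I, hI⟩ := CLQ_many _ hx
        exact ⟨I, fun _ => hI⟩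
      · exact ⟨∅, fun h => absurd h hx⟩
    choose J hJ using hch
    have h6 := Finset.exists_le_card_fiber_of_nsmul_le_card_of_maps_to
      (s := {x ∈ U M | Many (CLQ_f s P x)}) (t := (Finset.univ : Finset (Finset (Fin k)))) (f := J)
      (b := (M : ℝ) ^ k / 2 ^ (k + 1)) (fun _ _ => Finset.mem_univ _) Finset.univ_nonempty (by
        rw [Finset.card_univ, Fintype.card_finset, Fintype.card_fin, nsmul_eq_mul]
        push_cast
        have : (2 : ℝ) ^ k * ((M : ℝ) ^ k / 2 ^ (k + 1)) = (M : ℝ) ^ k / 2 := by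
          rw [pow_succ]; field_simp
        rw [this]
        exact h5)
    obtain ⟨I, -, hI⟩ := h6
    have h7 : (0 : ℝ) < #{x ∈ {x ∈ U M | Many (CLQ_f s P x)} | J x = I} := lt_of_lt_of_le (by positivity) hI
    have h8 : 0 < #{x ∈ {x ∈ U M | Many (CLQ_f s P x)} | J x = I} := by exact_mod_cast h7
    obtain ⟨x, hx⟩ := Finset.card_pos.mp h8
    have hx2 := Finset.mem_filter.mp hx
    have hx3 := Finset.mem_filter.mp hx2.1
    refine ⟨I, ?_, ?_⟩
    · rw [← hx2.2]
      exact (hJ x hx3.2).1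
    · refine le_trans hI ?_
      apply Nat.cast_le.mpr
      apply Finset.card_le_card
      intro y hy
      have hy2 := Finset.mem_filter.mp hy
      have hy3 := Finset.mem_filter.mp hy2.1
      rw [Finset.mem_filter]
      refine ⟨hy3.1, ?_⟩
      rw [← hy2.2]
      exact (hJ y hy3.2).2
  -- one I for infinitely many M
  have hI : ∃ I, ∀ M₁ : ℕ, ∃ M ≥ M₁, R M I := by
    by_contra hcon
    have hcon' : ∀ I, ∃ M₁ : ℕ, ∀ M ≥ M₁, ¬ R M I := by
      intro I
      by_contra h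
      apply hcon
      refine ⟨I, ?_⟩
      intro M₁
      by_contra h2
      apply h
      refine ⟨M₁, ?_⟩
      intro M hM hRM
      exact h2 ⟨M, hM, hRM⟩
    choose m hm using hcon'
    obtain ⟨I, hI⟩ := hR (max (max M₀ 1) ((Finset.univ : Finset (Finset (Fin k))).sup m)) (le_max_left _ _)
    exact hm I _ (le_trans (Finset.le_sup (f := m) (Finset.mem_univ I)) (le_max_right _ _)) hI
  obtain ⟨I, hI⟩ := hI
  set S : ℕ := ∑ i, s i with hSdef
  have hSi : ∀ i, s i ≤ S := fun i => Finset.single_le_sum (fun _ _ => Nat.zero_le _) (Finset.mem_univ i)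
  have hSpos : 1 ≤ S := le_trans (hs ⟨0, hk⟩) (hSi ⟨0, hk⟩)
  have hSr : (0 : ℝ) < S := by exact_mod_cast hSpos
  have hIcard : (1 / 4 + 1 / 500000 : ℝ) * k < #I := by
    obtain ⟨M, -, hM⟩ := hI 0
    exact hM.1
  refine ⟨I, 1 / (2 ^ (k + 1) * (S * (1 + P))), by positivity, hIcard, ?_⟩
  intro X₀
  obtain ⟨M, hM, -, hRM⟩ := hI (max X₀ 1)
  have hM1 : 1 ≤ M := le_trans (le_max_right _ _) hM
  have hMpos : (0 : ℝ) < M := by exact_mod_cast hM1
  refine ⟨S * (1 + P * M), ?_, ?_⟩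
  · have h1 : X₀ ≤ M := le_trans (le_max_left _ _) hM
    have h2 : M ≤ P * M := Nat.le_mul_of_pos_left M hPpos
    calc X₀ ≤ M := h1
      _ ≤ 1 * (1 + P * M) := by omega
      _ ≤ S * (1 + P * M) := Nat.mul_le_mul_right _ hSpos
  · intro i hi j hj hij
    let φ : (Fin k → ℕ) → ℤ := fun x =>
      ((s j : ℤ) * (1 + (P : ℤ) * x i) - s i * (1 + (P : ℤ) * x j)) / ((Nat.gcd (s i) (s j) : ℕ) : ℤ)
    set G : Finset (Fin k → ℕ) := {x ∈ U M | CLQ_Good (CLQ_f s P x) I} with hG
    have hfib : #G ≤ M ^ (k - 1) * #(G.image φ) := by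
      apply Finset.card_le_mul_card_image
      intro c _
      apply CLQ_fib s P M hPpos hs i j hij c
      · intro x hx
        exact (Finset.mem_filter.mp (Finset.mem_filter.mp hx).1).1
      · intro x hx
        exact (Finset.mem_filter.mp hx).2
    have hsub : #(G.image φ) ≤ #{c ∈ Icc (-((S * (1 + P * M) : ℕ) : ℤ)) ((S * (1 + P * M) : ℕ) : ℤ) |
        TrueCase (s j / Nat.gcd (s i) (s j)) (s i / Nat.gcd (s i) (s j)) c} := by
      apply Finset.card_le_card
      intro c hc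
      obtain ⟨x, hx, rfl⟩ := Finset.mem_image.mp hc
      have hx2 := Finset.mem_filter.mp hx
      rw [Finset.mem_filter]
      refine ⟨?_, ?_⟩
      · have hxi := Finset.mem_Icc.mp (Fintype.mem_piFinset.mp hx2.1 i)
        have hxj := Finset.mem_Icc.mp (Fintype.mem_piFinset.mp hx2.1 j)
        have a1 : |φ x| ≤ |(s j : ℤ) * (1 + (P : ℤ) * x i) - s i * (1 + (P : ℤ) * x j)| := Int.abs_ediv_le_abs _ _
        have b1 : s j * (1 + P * x i) ≤ S * (1 + P * M) :=
          Nat.mul_le_mul (hSi j) (Nat.add_le_add_left (Nat.mul_le_mul_left P hxi.2) 1)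
        have b2 : s i * (1 + P * x j) ≤ S * (1 + P * M) :=
          Nat.mul_le_mul (hSi i) (Nat.add_le_add_left (Nat.mul_le_mul_left P hxj.2) 1)
        have b3 : (s j : ℤ) * (1 + (P : ℤ) * x i) ≤ ((S * (1 + P * M) : ℕ) : ℤ) := by exact_mod_cast b1
        have b4 : (s i : ℤ) * (1 + (P : ℤ) * x j) ≤ ((S * (1 + P * M) : ℕ) : ℤ) := by exact_mod_cast b2
        have b5 : (0 : ℤ) ≤ (s j : ℤ) * (1 + (P : ℤ) * x i) := by positivity
        have b6 : (0 : ℤ) ≤ (s i : ℤ) * (1 + (P : ℤ) * x j) := by positivity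
        have a2 : |(s j : ℤ) * (1 + (P : ℤ) * x i) - s i * (1 + (P : ℤ) * x j)| ≤ ((S * (1 + P * M) : ℕ) : ℤ) := by
          rw [abs_le]; constructor <;> linarith
        rw [Finset.mem_Icc]
        exact abs_le.mp (le_trans a1 a2)
      · have hne : CLQ_f s P x i ≠ CLQ_f s P x j := by
          intro h
          have h1 : s i = s j := congrArg Prod.fst h
          exact hij (hinj h1)
        have hadm : Adm ![CLQ_f s P x i, CLQ_f s P x j] := by
          intro p hp
          obtain ⟨n, hn⟩ := CLQ_adm s P hP1 hP2 x p hp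
          refine ⟨n, ?_⟩
          intro l
          fin_cases l
          · exact hn i
          · exact hn j
        exact hPRT (CLQ_f s P x i) (CLQ_f s P x j) (hs i) (hs j) hne hadm (by
          intro N
          obtain ⟨n, hn, hpr⟩ := hx2.2 N
          exact ⟨n, hn, hpr i hi, hpr j hj⟩)
    have e1 : (M : ℝ) ^ k / 2 ^ (k + 1) ≤ (M : ℝ) ^ (k - 1) * #(G.image φ) := by
      refine le_trans hRM ?_
      exact_mod_cast hfib
    have e2 : (M : ℝ) ^ k = (M : ℝ) ^ (k - 1) * M := by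
      rw [← pow_succ, Nat.sub_add_cancel hk]
    have e3 : (M : ℝ) / 2 ^ (k + 1) ≤ #(G.image φ) := by
      have hpp : (0 : ℝ) < (M : ℝ) ^ (k - 1) := by positivity
      rw [e2, mul_div_assoc] at e1
      exact le_of_mul_le_mul_left e1 hpp
    have e4 : (1 / (2 ^ (k + 1) * (S * (1 + P))) : ℝ) * ((S * (1 + P * M) : ℕ) : ℝ) ≤ (M : ℝ) / 2 ^ (k + 1) := by
      have hPr : (0 : ℝ) < P := by exact_mod_cast hPpos
      push_cast
      rw [div_mul_eq_mul_div, one_mul, div_le_div_iff₀ (by positivity) (by positivity)]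
      have hM1r : (1 : ℝ) ≤ M := by exact_mod_cast hM1
      have h9 : (1 + (P : ℝ) * M) ≤ (1 + P) * M := by nlinarith
      have h10 : (S : ℝ) * (1 + (P : ℝ) * M) * 2 ^ (k + 1) ≤ S * ((1 + P) * M) * 2 ^ (k + 1) := by
        apply mul_le_mul_of_nonneg_right _ (by positivity)
        exact mul_le_mul_of_nonneg_left h9 hSr.le
      calc (S : ℝ) * (1 + (P : ℝ) * M) * 2 ^ (k + 1) ≤ S * ((1 + P) * M) * 2 ^ (k + 1) := h10
        _ = M * (2 ^ (k + 1) * (S * (1 + P))) := by ring
    refine le_trans e4 (le_trans e3 ?_)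
    exact Nat.cast_le.mpr hsub

end Pool.Agent.AT
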